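import Pool.Agent.H768R3.Wreath

set_option autoImplicit false

/-!
# The group of even sign changes and cyclic permutations acting on `(ZMod 5)^3`
-/

namespace Pool.Agent.H768R3.A4

open Pool.Agent.H768R3.Wreath

/-- Signs `s : Fin 3 → ℤˣ` with product one and a cyclic shift `k`: the alternating group `A₄`. -/
@[ext] structure A where
  s : Fin 3 → ℤˣ
  k : Fin 3
  hs : s 0 * s 1 * s 2 = 1

instance : Mul A := ⟨fun a b => ⟨fun i => a.s i * b.s (i + a.k), a.k + b.k, by
  have ha := a.hs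
  have hb := b.hs
  have : ∀ k : Fin 3, b.s (0 + k) * b.s (1 + k) * b.s (2 + k) = 1 := by
    intro k
    fin_cases k
    · exact hb
    · change b.s 1 * b.s 2 * b.s 0 = 1
      rw [← hb, mul_comm, mul_assoc]
    · change b.s 2 * b.s 0 * b.s 1 = 1
      rw [← hb, mul_assoc, mul_comm]
  calc a.s 0 * b.s (0 + a.k) * (a.s 1 * b.s (1 + a.k)) * (a.s 2 * b.s (2 + a.k))
      = (a.s 0 * a.s 1 * a.s 2) * (b.s (0 + a.k) * b.s (1 + a.k) * b.s (2 + a.k)) := by
        ac_rfl
    _ = 1 := by rw [ha, this, one_mul]⟩⟩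

instance : One A := ⟨⟨fun _ => 1, 0, by simp⟩⟩

instance : Inv A := ⟨fun a => ⟨fun i => a.s (i - a.k), -a.k, by
  have ha := a.hs
  have : ∀ k : Fin 3, a.s (0 - k) * a.s (1 - k) * a.s (2 - k) = 1 := by
    intro k
    fin_cases k
    · exact ha
    · change a.s 2 * a.s 0 * a.s 1 = 1
      rw [← ha, mul_assoc, mul_comm]
    · change a.s 1 * a.s 2 * a.s 0 = 1
      rw [← ha, mul_comm, mul_assoc]
  exact this a.k⟩⟩

theorem mul_s (a b : A) (i : Fin 3) : (a * b).s i = a.s i * b.s (i + a.k) := rfl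
theorem mul_k (a b : A) : (a * b).k = a.k + b.k := rfl
theorem one_s (i : Fin 3) : (1 : A).s i = 1 := rfl
theorem one_k : (1 : A).k = 0 := rfl
theorem inv_s (a : A) (i : Fin 3) : (a⁻¹).s i = a.s (i - a.k) := rfl
theorem inv_k (a : A) : (a⁻¹).k = -a.k := rfl

instance : Group A := Group.ofLeftAxioms
  (by
    intro a b c
    ext i
    · simp only [mul_s, mul_k, mul_assoc, add_assoc]
    · simp only [mul_k, add_assoc])
  (by
    intro a
    ext i
    · simp only [mul_s, one_s, one_k, one_mul, add_zero]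
    · simp only [mul_k, one_k, zero_add])
  (by
    intro a
    ext i
    · simp only [mul_s, inv_s, inv_k, one_s]
      rw [← sub_eq_add_neg, Int.units_mul_self]
    · simp only [mul_k, inv_k, one_k, neg_add_cancel])

abbrev V : Type := Fin 3 → ZMod 5

instance : DistribMulAction A V where
  smul a x := fun i => ((a.s i : ℤ) : ZMod 5) * x (i + a.k)
  one_smul x := by
    funext i
    change (((1 : A).s i : ℤ) : ZMod 5) * x (i + (1 : A).k) = x i
    rw [one_s, one_k]
    simp
  mul_smul a b x := by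
    funext i
    change (((a * b).s i : ℤ) : ZMod 5) * x (i + (a * b).k) =
      ((a.s i : ℤ) : ZMod 5) * (((b.s (i + a.k) : ℤ) : ZMod 5) * x (i + a.k + b.k))
    rw [mul_s, mul_k, Units.val_mul, Int.cast_mul, mul_assoc, add_assoc]
  smul_zero a := by
    funext i
    change ((a.s i : ℤ) : ZMod 5) * 0 = 0
    rw [mul_zero]
  smul_add a x y := by
    funext i
    change ((a.s i : ℤ) : ZMod 5) * (x (i + a.k) + y (i + a.k)) =
      ((a.s i : ℤ) : ZMod 5) * x (i + a.k) + ((a.s i : ℤ) : ZMod 5) * y (i + a.k)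
    rw [mul_add]

theorem smul_apply (a : A) (x : V) (i : Fin 3) :
    (a • x) i = ((a.s i : ℤ) : ZMod 5) * x (i + a.k) := rfl

/-- the vector with trivial stabiliser -/
def x₀ : V := ![0, 1, 2]

/-- the vector outside all `(1 - h) V` -/
def v₀ : V := ![1, 1, 1]

theorem aux_reg : ∀ (k : Fin 3) (s0 s1 s2 : ℤˣ), s0 * s1 * s2 = 1 →
    ((s0 : ℤ) : ZMod 5) * x₀ (0 + k) = x₀ 0 → ((s1 : ℤ) : ZMod 5) * x₀ (1 + k) = x₀ 1 →
    ((s2 : ℤ) : ZMod 5) * x₀ (2 + k) = x₀ 2 → k = 0 ∧ s0 = 1 ∧ s1 = 1 ∧ s2 = 1 := by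
  decide

theorem reg_x₀ : Reg A x₀ := by
  intro a h
  obtain ⟨hk, h0, h1, h2⟩ := aux_reg a.k (a.s 0) (a.s 1) (a.s 2) a.hs (congrFun h 0)
    (congrFun h 1) (congrFun h 2)
  ext i
  · rw [one_s]
    fin_cases i
    · exact congrArg _ h0
    · exact congrArg _ h1
    · exact congrArg _ h2
  · rw [hk, one_k]

theorem aux_v : ∀ (k : Fin 3) (s0 s1 s2 : ℤˣ), s0 * s1 * s2 = 1 → ∀ a b c : ZMod 5,
    a - ((s0 : ℤ) : ZMod 5) * ![a, b, c] (0 + k) = 1 →
    b - ((s1 : ℤ) : ZMod 5) * ![a, b, c] (1 + k) = 1 →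
    c - ((s2 : ℤ) : ZMod 5) * ![a, b, c] (2 + k) = 1 → False := by
  decide +kernel

theorem notMem_v₀ (h : A) (x : V) : x - h • x ≠ v₀ := by
  intro hx
  have hx' : x = ![x 0, x 1, x 2] := by
    funext i
    fin_cases i <;> rfl
  apply aux_v h.k (h.s 0) (h.s 1) (h.s 2) h.hs (x 0) (x 1) (x 2)
  · rw [← hx']; exact congrFun hx 0
  · rw [← hx']; exact congrFun hx 1
  · rw [← hx']; exact congrFun hx 2

/-- the sign change fixing coordinate `i` and negating the two others -/
def sg (i : Fin 3) : A := ⟨fun j => if j = i then 1 else -1, 0, by revert i; decide⟩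

/-- the cyclic shift by `k` -/
def sh (k : Fin 3) : A := ⟨fun _ => 1, k, by decide⟩

theorem sg_smul (i : Fin 3) (x : V) (j : Fin 3) :
    (sg i • x) j = if j = i then x j else - x j := by
  rw [smul_apply]
  change (((if j = i then 1 else -1 : ℤˣ) : ℤ) : ZMod 5) * x (j + 0) = _
  split_ifs <;> simp

theorem sh_smul (k : Fin 3) (x : V) (j : Fin 3) : (sh k • x) j = x (j + k) := by
  rw [smul_apply]
  change (((1 : ℤˣ) : ℤ) : ZMod 5) * x (j + k) = _
  simp

instance : Fact (Nat.Prime 5) := ⟨by norm_num⟩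

theorem two_ne : (2 : ZMod 5) ≠ 0 := by decide

theorem ne_succ : ∀ i : Fin 3, ¬ i = i + 1 := by decide

theorem moved (x : V) (hx : x ≠ 0) : ∃ h : A, h • x ≠ x := by
  obtain ⟨i, hi⟩ : ∃ i, x i ≠ 0 := by
    by_contra hcon
    push Not at hcon
    exact hx (funext hcon)
  refine ⟨sg (i + 1), fun h => hi ?_⟩
  have h1 := congrFun h i
  rw [sg_smul, if_neg (ne_succ i)] at h1
  have h2 : 2 * x i = 0 := by
    calc 2 * x i = x i - (- x i) := by ring
      _ = 0 := by rw [h1, sub_self]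
  rcases mul_eq_zero.mp h2 with h | h
  · exact absurd h two_ne
  · exact h

theorem irr (S : AddSubgroup V) (hS : ∀ h : A, ∀ x ∈ S, h • x ∈ S) : S = ⊥ ∨ S = ⊤ := by
  by_cases h0 : S = ⊥
  · exact Or.inl h0
  right
  obtain ⟨x, hx, hx0⟩ : ∃ x ∈ S, x ≠ 0 := by
    by_contra hcon
    push Not at hcon
    exact h0 ((AddSubgroup.eq_bot_iff_forall S).mpr hcon)
  obtain ⟨i, hi⟩ : ∃ i, x i ≠ 0 := by
    by_contra hcon
    push Not at hcon
    exact hx0 (funext hcon)
  have h1 : Pi.single i (2 * x i) ∈ S := by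
    have h2 := S.add_mem hx (hS (sg i) x hx)
    have h3 : x + sg i • x = Pi.single i (2 * x i) := by
      funext j
      rw [Pi.add_apply, sg_smul]
      by_cases hj : j = i
      · subst hj
        rw [if_pos rfl, Pi.single_eq_same]; ring
      · rw [if_neg hj, Pi.single_eq_of_ne hj]; ring
    rwa [h3] at h2
  have h2x : 2 * x i ≠ 0 := mul_ne_zero two_ne hi
  have h4 : ∀ c : ZMod 5, Pi.single i c ∈ S := by
    intro c
    have h5 := S.nsmul_mem h1 (c * (2 * x i)⁻¹).val
    have h6 : (c * (2 * x i)⁻¹).val • (Pi.single i (2 * x i) : V) = Pi.single i c := by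
      funext j
      rw [Pi.smul_apply, nsmul_eq_mul, ZMod.natCast_zmod_val]
      by_cases hj : j = i
      · subst hj
        rw [Pi.single_eq_same, Pi.single_eq_same, mul_assoc, inv_mul_cancel₀ h2x, mul_one]
      · rw [Pi.single_eq_of_ne hj, Pi.single_eq_of_ne hj, mul_zero]
    rwa [h6] at h5
  have h7 : ∀ (j : Fin 3) (c : ZMod 5), Pi.single j c ∈ S := by
    intro j c
    have h8 := hS (sh (i - j)) _ (h4 c)
    have h9 : sh (i - j) • (Pi.single i c : V) = Pi.single j c := by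
      funext k
      rw [sh_smul]
      by_cases hk : k = j
      · subst hk
        rw [add_sub_cancel, Pi.single_eq_same, Pi.single_eq_same]
      · rw [Pi.single_eq_of_ne hk, Pi.single_eq_of_ne]
        intro h
        apply hk
        have : k + (i - j) - (i - j) = i - (i - j) := by rw [h]
        rwa [add_sub_cancel_right, sub_sub_cancel] at this
    rwa [h9] at h8
  rw [eq_top_iff]
  intro y _
  have h10 : y = ∑ j, Pi.single j (y j) := (Finset.univ_sum_single y).symm
  rw [h10]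
  exact S.sum_mem fun j _ => h7 j _

instance : FaithfulSMul A V := ⟨by
  intro a b h
  have h1 : (b⁻¹ * a) • x₀ = x₀ := by
    rw [mul_smul, h x₀, inv_smul_smul]
  have h2 := reg_x₀ _ h1
  rw [inv_mul_eq_one] at h2
  exact h2.symm⟩

instance : Nontrivial A := ⟨⟨sh 1, 1, fun h => by
  have := congrArg A.k h
  rw [one_k] at this
  exact absurd this (by decide)⟩⟩

end Pool.Agent.H768R3.A4
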