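import Mathlib

set_option autoImplicit false

/-!
# A general construction refuting the common neighbour property

Let `H` be a finite irreducible group of automorphisms of a finite abelian group `V`, with a regular
orbit, and let `v` be an element which lies in none of the sets `(1 - h) V`, `h ∈ H`. Let `ι` be the
set of regular orbits of `H` and let `G` be the product action group `(V ⋊ H) wr Sym(ι)` on `ι → V`.
Then `G` is primitive with base size two, and the points `0` and `(v, 0, ..., 0)` have no common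
neighbour in the Saxl graph of `G`.
-/

namespace Pool.Agent.H768R3.Wreath

variable (H V : Type) [Group H] [AddCommGroup V] [DistribMulAction H V]

/-- The equivalence relation whose classes are the `H`-orbits. -/
def orbSetoid : Setoid V where
  r x y := ∃ h : H, h • x = y
  iseqv :=
    { refl := fun x => ⟨1, one_smul _ _⟩
      symm := by
        rintro x y ⟨h, rfl⟩
        exact ⟨h⁻¹, inv_smul_smul _ _⟩
      trans := by
        rintro x y z ⟨h, rfl⟩ ⟨k, rfl⟩
        exact ⟨k * h, mul_smul _ _ _⟩ }

variable {V}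

/-- `x` has trivial stabiliser in `H`. -/
def Reg (x : V) : Prop := ∀ h : H, h • x = x → h = 1

variable (V)

/-- The type of regular orbits. -/
def Orb : Type :=
  {q : Quotient (orbSetoid H V) // ∃ x : V, Quotient.mk (orbSetoid H V) x = q ∧ Reg H x}

instance [Finite V] : Finite (Orb H V) := by
  unfold Orb
  infer_instance

variable {V}

/-- the class of a regular vector -/
def cls (x : V) (hx : Reg H x) : Orb H V :=
  ⟨Quotient.mk (orbSetoid H V) x, x, rfl, hx⟩

variable {H}

theorem cls_eq {x y : V} {hx : Reg H x} {hy : Reg H y} :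
    cls H x hx = cls H y hy ↔ ∃ h : H, h • x = y := by
  constructor
  · intro h
    have h1 : Quotient.mk (orbSetoid H V) x = Quotient.mk (orbSetoid H V) y := congrArg Subtype.val h
    exact Quotient.exact h1
  · rintro h
    apply Subtype.ext
    exact Quotient.sound h

variable (H V)

/-- The group `(V ⋊ H) wr Sym(ι)` in product action on `ι → V`. -/
def wr (ι : Type) : Subgroup (Equiv.Perm (ι → V)) where
  carrier := {g | ∃ (s : Equiv.Perm ι) (f : ι → H) (w : ι → V),
    ∀ x i, g x i = f i • (x (s i)) + w i}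
  one_mem' := ⟨1, fun _ => 1, 0, fun x i => by simp⟩
  mul_mem' := by
    rintro g g' ⟨s, f, w, hg⟩ ⟨s', f', w', hg'⟩
    refine ⟨s' * s, fun i => f i * f' (s i), fun i => f i • (w' (s i)) + w i, fun x i => ?_⟩
    rw [Equiv.Perm.mul_apply, hg, hg', smul_add, mul_smul, Equiv.Perm.mul_apply, add_assoc]
  inv_mem' := by
    rintro g ⟨s, f, w, hg⟩
    refine ⟨s⁻¹, fun i => (f (s⁻¹ i))⁻¹, fun i => - ((f (s⁻¹ i))⁻¹ • (w (s⁻¹ i))), fun y i => ?_⟩
    obtain ⟨x, rfl⟩ := g.surjective y
    have h1 : g⁻¹ (g x) = x := by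
      rw [← Equiv.Perm.mul_apply, inv_mul_cancel, Equiv.Perm.one_apply]
    rw [h1, hg, smul_add]
    have h2 : s (s⁻¹ i) = i := by
      rw [← Equiv.Perm.mul_apply, mul_inv_cancel, Equiv.Perm.one_apply]
    rw [h2, inv_smul_smul, add_assoc, add_neg_cancel, add_zero]

variable {H V} {ι : Type}

/-- the element of the wreath product with given components -/
def elt (s : Equiv.Perm ι) (f : ι → H) (w : ι → V) : Equiv.Perm (ι → V) where
  toFun x := fun i => f i • (x (s i)) + w i
  invFun y := fun i => (f (s⁻¹ i))⁻¹ • (y (s⁻¹ i) - w (s⁻¹ i))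
  left_inv x := by
    funext i
    have h2 : s (s⁻¹ i) = i := by
      rw [← Equiv.Perm.mul_apply, mul_inv_cancel, Equiv.Perm.one_apply]
    simp only [h2, add_sub_cancel_right, inv_smul_smul]
  right_inv y := by
    funext i
    have h2 : s⁻¹ (s i) = i := by
      rw [← Equiv.Perm.mul_apply, inv_mul_cancel, Equiv.Perm.one_apply]
    simp only [h2, smul_inv_smul]
    abel

theorem elt_apply (s : Equiv.Perm ι) (f : ι → H) (w : ι → V) (x : ι → V) (i : ι) :
    elt s f w x i = f i • (x (s i)) + w i := rfl

theorem elt_mem (s : Equiv.Perm ι) (f : ι → H) (w : ι → V) :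
    elt s f w ∈ wr H V ι := ⟨s, f, w, fun _ _ => rfl⟩

section prim

open MulAction
open scoped Pointwise

theorem pretransitive : IsPretransitive (wr H V ι) (ι → V) := by
  constructor
  intro x y
  refine ⟨⟨elt 1 (fun _ => (1 : H)) (y - x), elt_mem _ _ _⟩, ?_⟩
  funext i
  change elt 1 (fun _ => (1 : H)) (y - x) x i = y i
  rw [elt_apply]
  simp

variable [Finite ι]

open Classical in
theorem primitive (hirr : ∀ S : AddSubgroup V, (∀ h : H, ∀ x ∈ S, h • x ∈ S) → S = ⊥ ∨ S = ⊤)
    (hnf : ∀ x : V, x ≠ 0 → ∃ h : H, h • x ≠ x) : IsPreprimitive (wr H V ι) (ι → V) := by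
  have := pretransitive (H := H) (V := V) (ι := ι)
  have := Fintype.ofFinite ι
  apply IsPreprimitive.of_isTrivialBlock_base (0 : ι → V)
  intro B h0 hB
  -- invariance
  have hinv : ∀ g ∈ wr H V ι, (∃ b ∈ B, g b ∈ B) → ∀ b, g b ∈ B ↔ b ∈ B := by
    intro g hg ⟨b, hb, hgb⟩
    have h1 : (⟨g, hg⟩ : wr H V ι) • B = B :=
      (isBlock_iff_smul_eq_of_mem.mp hB) hb hgb
    intro c
    constructor
    · intro hc
      rw [← h1] at hc
      obtain ⟨d, hd, hdc⟩ := hc
      have : g d = g c := hdc
      rwa [← g.injective this]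
    · intro hc
      rw [← h1]
      exact ⟨c, hc, rfl⟩
  have hadd : ∀ b ∈ B, ∀ c, c + b ∈ B ↔ c ∈ B := by
    intro b hb c
    have h1 := hinv (elt 1 (fun _ => (1 : H)) b) (elt_mem _ _ _) ⟨0, h0, by
      have : elt 1 (fun _ => (1 : H)) b 0 = b := by
        funext i; rw [elt_apply]; simp
      rw [this]; exact hb⟩ c
    have h2 : elt 1 (fun _ => (1 : H)) b c = c + b := by
      funext i; rw [elt_apply]; simp
    rwa [h2] at h1
  let S : AddSubgroup (ι → V) :=
    { carrier := B
      zero_mem' := h0
      add_mem' := fun {a b} ha hb => (hadd b hb a).mpr ha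
      neg_mem' := fun {a} ha => by
        have := hadd a ha (-a)
        rw [neg_add_cancel] at this
        exact this.mp h0 }
  have hS : ∀ x, x ∈ S ↔ x ∈ B := fun x => Iff.rfl
  have hK : ∀ (s : Equiv.Perm ι) (f : ι → H), ∀ x ∈ S,
      (fun i => f i • (x (s i))) ∈ S := by
    intro s f x hx
    have h1 := hinv (elt s f 0) (elt_mem _ _ _) ⟨0, h0, by
      have : elt s f (0 : ι → V) 0 = 0 := by
        funext i; rw [elt_apply]; simp
      rw [this]; exact h0⟩ x
    have h2 : elt s f 0 x = fun i => f i • (x (s i)) := by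
      funext i; rw [elt_apply]; simp
    rw [h2] at h1
    exact h1.mpr hx
  by_cases hBs : B.Subsingleton
  · exact Or.inl hBs
  right
  have hne : ∃ b ∈ S, b ≠ 0 := by
    by_contra hcon
    push Not at hcon
    apply hBs
    intro x hx y hy
    rw [hcon x hx, hcon y hy]
  obtain ⟨b, hb, hb0⟩ := hne
  obtain ⟨i, hi⟩ : ∃ i, b i ≠ 0 := by
    by_contra hcon
    push Not at hcon
    exact hb0 (funext hcon)
  obtain ⟨h, hhb⟩ := hnf _ hi
  let T : ι → AddSubgroup V := fun j => S.comap (AddMonoidHom.single (fun _ : ι => V) j)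
  have hT : ∀ j x, x ∈ T j ↔ Pi.single j x ∈ S := fun j x => Iff.rfl
  have hTinv : ∀ j, ∀ h : H, ∀ x ∈ T j, h • x ∈ T j := by
    intro j h x hx
    rw [hT] at hx ⊢
    have h1 := hK 1 (fun _ => h) _ hx
    have h2 : (fun k => h • ((Pi.single j x : ι → V) ((1 : Equiv.Perm ι) k)))
        = Pi.single j (h • x) := by
      funext k
      rw [Equiv.Perm.one_apply]
      by_cases hk : k = j
      · subst hk; simp
      · simp [hk]
    rwa [h2] at h1
  have hTi : T i = ⊤ := by
    rcases hirr (T i) (hTinv i) with h1 | h1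
    · exfalso
      have h2 : h • (b i) - b i ∈ T i := by
        rw [hT]
        have h3 := hK 1 (fun k => if k = i then h else 1) _ hb
        have h4 := S.sub_mem h3 hb
        have h5 : (fun k => (if k = i then h else 1 : H) • (b ((1 : Equiv.Perm ι) k))) - b
            = Pi.single i (h • (b i) - b i) := by
          funext k
          by_cases hk : k = i
          · subst hk; simp
          · simp [hk, Pi.single_eq_of_ne hk]
        rwa [h5] at h4
      rw [h1, AddSubgroup.mem_bot, sub_eq_zero] at h2
      exact hhb h2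
    · exact h1
  have hTj : ∀ j x, Pi.single j x ∈ S := by
    intro j x
    have h1 : Pi.single i x ∈ S := by
      rw [← hT, hTi]; trivial
    have h2 := hK (Equiv.swap i j) (fun _ => 1) _ h1
    have h3 : (fun k => (1 : H) • ((Pi.single i x : ι → V) (Equiv.swap i j k)))
        = Pi.single j x := by
      funext k
      rw [one_smul]
      by_cases hk : k = j
      · subst hk; simp
      · rw [Pi.single_eq_of_ne hk]
        apply Pi.single_eq_of_ne
        intro hcon
        apply hk
        have := congrArg (Equiv.swap i j) hcon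
        simpa using this
    rwa [h3] at h2
  rw [Set.eq_univ_iff_forall]
  intro x
  rw [← hS]
  have h1 : x = ∑ j, Pi.single j (x j) := (Finset.univ_sum_single x).symm
  rw [h1]
  exact S.sum_mem fun j _ => hTj j _

end prim

open Classical in
/-- If every element of the group fixing `α` and `γ` is trivial then `γ - α` has regular components
in pairwise different orbits. -/
theorem comps [FaithfulSMul H V] {u : V} (hu : u ≠ 0) (α γ : ι → V)
    (hb : ∀ g ∈ wr H V ι, g α = α → g γ = γ → g = 1) :
    ∃ hr : ∀ i, Reg H (γ i - α i), Function.Injective fun i => cls H (γ i - α i) (hr i) := by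
  -- linear elements fixing `γ - α` are trivial
  have key : ∀ (s : Equiv.Perm ι) (f : ι → H),
      (∀ i, f i • (γ (s i) - α (s i)) = γ i - α i) → elt s f (0 : ι → V) = 1 := by
    intro s f h1
    have h2 := hb (elt s f (fun i => α i - f i • (α (s i)))) (elt_mem _ _ _)
      (by funext i; rw [elt_apply]; abel)
      (by
        funext i
        rw [elt_apply]
        have h3 := h1 i
        rw [smul_sub] at h3
        have h4 : f i • γ (s i) + (α i - f i • α (s i)) =
          (f i • γ (s i) - f i • α (s i)) + α i := by abel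
        rw [h4, h3]
        abel)
    ext x i
    have h3 : elt s f (fun i => α i - f i • (α (s i))) (α + x) i = (α + x) i := by rw [h2]; rfl
    rw [elt_apply] at h3
    rw [elt_apply]
    simp only [Pi.add_apply, smul_add, Pi.zero_apply, Equiv.Perm.coe_one, id_eq] at h3 ⊢
    have h4 : f i • (x (s i)) + α i = x i + α i := by
      rw [add_comm (x i), ← h3]; abel
    rw [add_zero]
    exact add_right_cancel h4
  have hr : ∀ i, Reg H (γ i - α i) := by
    intro i h hfix
    have h1 := key 1 (fun k => if k = i then h else 1)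
      (by
        intro k
        by_cases hk : k = i
        · subst hk; simpa using hfix
        · simp [hk])
    apply FaithfulSMul.eq_of_smul_eq_smul (α := V)
    intro x
    have h2 : elt 1 (fun k => if k = i then h else 1) 0 (fun _ => x) i = x := by rw [h1]; rfl
    rw [elt_apply] at h2
    simpa using h2
  refine ⟨hr, ?_⟩
  intro i j hij
  by_contra hne
  obtain ⟨h, hhx⟩ := cls_eq.mp hij
  have h1 := key (Equiv.swap i j) (fun k => if k = i then h⁻¹ else if k = j then h else 1)
    (by
      intro k
      by_cases hk : k = i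
      · subst hk
        simp only [if_true, Equiv.swap_apply_left]
        rw [← hhx, inv_smul_smul]
      · by_cases hk' : k = j
        · subst hk'
          simp only [hk, if_true, if_false, Equiv.swap_apply_right]
          exact hhx
        · simp only [hk, hk', if_false, one_smul, Equiv.swap_apply_of_ne_of_ne hk hk'])
  have h2 : elt (Equiv.swap i j) (fun k => if k = i then h⁻¹ else if k = j then h else 1) 0
      (Pi.single i u) i = (Pi.single i u : ι → V) i := by rw [h1]; rfl
  rw [elt_apply] at h2
  simp only [if_true, Equiv.swap_apply_left, Pi.zero_apply, add_zero, Pi.single_eq_same,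
    Pi.single_eq_of_ne (Ne.symm hne), smul_zero] at h2
  exact hu h2.symm

/-- The main construction. -/
theorem main [FaithfulSMul H V] [Finite V] [Nontrivial H]
    (hirr : ∀ S : AddSubgroup V, (∀ h : H, ∀ x ∈ S, h • x ∈ S) → S = ⊥ ∨ S = ⊤)
    (hnf : ∀ x : V, x ≠ 0 → ∃ h : H, h • x ≠ x)
    (x₀ : V) (hx₀ : Reg H x₀) (v : V) (hv : ∀ (h : H) (x : V), x - h • x ≠ v) :
    ¬ (∀ (Ω : Type) [Finite Ω] (G : Subgroup (Equiv.Perm Ω)) (b : ℕ),
      MulAction.IsPreprimitive G Ω →
      (∃ B : Finset Ω, B.card = b ∧ ∀ g ∈ G, (∀ x ∈ B, g x = x) → g = 1) →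
      (∀ B : Finset Ω, (∀ g ∈ G, (∀ x ∈ B, g x = x) → g = 1) → b ≤ B.card) →
      2 ≤ b →
      ∀ α β : Ω, ∃ γ : Ω,
        (γ ≠ α ∧ ∃ B : Finset Ω, B.card = b ∧ α ∈ B ∧ γ ∈ B ∧
            ∀ g ∈ G, (∀ x ∈ B, g x = x) → g = 1) ∧
        (γ ≠ β ∧ ∃ B : Finset Ω, B.card = b ∧ β ∈ B ∧ γ ∈ B ∧
            ∀ g ∈ G, (∀ x ∈ B, g x = x) → g = 1)) := by
  classical
  intro hall
  have hx0 : x₀ ≠ 0 := by
    rintro rfl
    obtain ⟨h, hh⟩ := exists_ne (1 : H)
    exact hh (hx₀ h (smul_zero h))
  let i₀ : Orb H V := cls H x₀ hx₀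
  -- a base of size two
  let r : Orb H V → V := fun q => q.2.choose
  have hr1 : ∀ q : Orb H V, Quotient.mk (orbSetoid H V) (r q) = q.1 := fun q => q.2.choose_spec.1
  have hr2 : ∀ q : Orb H V, Reg H (r q) := fun q => q.2.choose_spec.2
  have hrinj : ∀ p q : Orb H V, (∃ h : H, h • r p = r q) → p = q := by
    intro p q h
    apply Subtype.ext
    rw [← hr1 p, ← hr1 q]
    exact Quotient.sound h
  have hbase : ∀ g ∈ wr H V (Orb H V), g 0 = 0 → g r = r → g = 1 := by
    rintro g ⟨s, f, w, hg⟩ h0 h1
    have hw : ∀ i, w i = 0 := by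
      intro i
      have := hg 0 i
      rw [h0] at this
      simpa using this.symm
    have h2 : ∀ i, f i • r (s i) = r i := by
      intro i
      have := hg r i
      rw [h1, hw, add_zero] at this
      exact this.symm
    have hs : ∀ i, s i = i := fun i => hrinj _ _ ⟨f i, h2 i⟩
    have hf : ∀ i, f i = 1 := by
      intro i
      apply hr2 i
      have := h2 i
      rwa [hs] at this
    ext x i
    rw [hg, hw, hf, hs]
    simp
  have hr0 : r ≠ 0 := by
    intro h
    have h1 := hr2 i₀
    rw [h] at h1
    obtain ⟨k, hk⟩ := exists_ne (1 : H)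
    exact hk (h1 k (smul_zero k))
  have hpair : ∀ {b : ℕ} (B : Finset (Orb H V → V)) (y z : Orb H V → V), b = 2 → B.card = b →
      y ∈ B → z ∈ B → z ≠ y → B = {y, z} := by
    intro b B y z hb hB hy hz hzy
    subst hb
    symm
    apply Finset.eq_of_subset_of_card_le
    · intro t ht
      rw [Finset.mem_insert, Finset.mem_singleton] at ht
      rcases ht with rfl | rfl
      · exact hy
      · exact hz
    · rw [hB, Finset.card_pair hzy.symm]
  obtain ⟨γ, ⟨hγα, B, hB, hαB, hγB, hBb⟩, ⟨hγβ, B', hB', hβB', hγB', hBb'⟩⟩ :=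
    hall (Orb H V → V) (wr H V (Orb H V)) 2 (primitive hirr hnf)
    ⟨{0, r}, Finset.card_pair hr0.symm, fun g hg hfix =>
      hbase g hg (hfix 0 (by simp)) (hfix r (by simp))⟩
    (by
      intro B hB
      by_contra hcard
      have h1 : B.card ≤ 1 := by omega
      obtain ⟨y, hy⟩ : ∃ y : Orb H V → V, B ⊆ {y} := by
        rcases Finset.card_le_one_iff_subset_singleton.mp h1 with ⟨y, hy⟩
        exact ⟨y, hy⟩
      obtain ⟨k, hk⟩ := exists_ne (1 : H)
      have h2 := hB (elt 1 (fun _ => k) (fun i => y i - k • y i)) (elt_mem _ _ _) (by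
        intro x hx
        have hxy : x = y := by simpa using hy hx
        subst hxy
        funext i
        rw [elt_apply, Equiv.Perm.one_apply]
        abel)
      apply hk
      apply FaithfulSMul.eq_of_smul_eq_smul (α := V)
      intro x
      have h3 : elt 1 (fun _ => k) (fun i => y i - k • y i) (fun i => y i + x) i₀ = y i₀ + x := by
        rw [h2]; rfl
      rw [elt_apply, Equiv.Perm.one_apply, smul_add] at h3
      rw [one_smul]
      have h4 : k • x + y i₀ = x + y i₀ := by
        rw [add_comm x, ← h3]; abel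
      exact add_right_cancel h4)
    le_rfl 0 (Pi.single i₀ v)
  have hB1 := hpair B _ _ rfl hB hαB hγB hγα
  have hB2 := hpair B' _ _ rfl hB' hβB' hγB' hγβ
  obtain ⟨hr, hinj⟩ := comps hx0 0 γ (fun g hg h1 h2 => hBb g hg (by
    intro x hx
    rw [hB1, Finset.mem_insert, Finset.mem_singleton] at hx
    rcases hx with rfl | rfl
    · exact h1
    · exact h2))
  obtain ⟨hr', hinj'⟩ := comps hx0 (Pi.single i₀ v) γ (fun g hg h1 h2 => hBb' g hg (by
    intro x hx
    rw [hB2, Finset.mem_insert, Finset.mem_singleton] at hx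
    rcases hx with rfl | rfl
    · exact h1
    · exact h2))
  have hsurj := Finite.surjective_of_injective hinj
  obtain ⟨j, hj⟩ := hsurj (cls H _ (hr' i₀))
  have hji : j = i₀ := by
    by_contra hne
    apply hne
    apply hinj'
    refine Eq.trans ?_ hj
    apply cls_eq.mpr
    refine ⟨1, ?_⟩
    rw [one_smul, Pi.single_eq_of_ne hne, Pi.zero_apply]
  rw [hji] at hj
  obtain ⟨h, hh⟩ := cls_eq.mp hj
  apply hv h (γ i₀)
  rw [Pi.zero_apply, sub_zero, Pi.single_eq_same] at hh
  rw [hh]
  abel

end Pool.Agent.H768R3.Wreath
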