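import Pool.Agent.H768R3.Wreath

set_option autoImplicit false

/-!
# Counterexamples of every base size

`H` is a finite irreducible group of automorphisms of the finite abelian group `V`, with a regular
orbit, and `v` lies in none of the sets `(1 - h) V`. Let `ι` be the set of regular `H`-orbits on
`V ^ (m + 1)`. The product action group `(V ⋊ H) wr Sym(ι)` on `ι → V` is primitive, has base size
`m + 2`, and `0` and `(v, 0, ..., 0)` have no common neighbour in its generalised Saxl graph.
-/

namespace Pool.Agent.H768R3.Wreath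

variable {H V : Type} [Group H] [AddCommGroup V] [DistribMulAction H V] {ι : Type}

open Classical in
/-- If every element of the group fixing `α` and all `z j` is trivial then the columns
`j ↦ z j i - α i` are regular and lie in pairwise different orbits. -/
theorem compsB [FaithfulSMul H V] {u : V} (hu : u ≠ 0) {n : ℕ} (α : ι → V) (z : Fin n → ι → V)
    (hb : ∀ g ∈ wr H V ι, g α = α → (∀ j, g (z j) = z j) → g = 1) :
    ∃ hr : ∀ i, Reg H (fun j => z j i - α i : Fin n → V),
      Function.Injective fun i => cls H (fun j => z j i - α i : Fin n → V) (hr i) := by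
  have key : ∀ (s : Equiv.Perm ι) (f : ι → H),
      (∀ i j, f i • (z j (s i) - α (s i)) = z j i - α i) → elt s f (0 : ι → V) = 1 := by
    intro s f h1
    have h2 := hb (elt s f (fun i => α i - f i • (α (s i)))) (elt_mem _ _ _)
      (by funext i; rw [elt_apply]; abel)
      (by
        intro j
        funext i
        rw [elt_apply]
        have h3 := h1 i j
        rw [smul_sub] at h3
        have h4 : f i • z j (s i) + (α i - f i • α (s i)) =
          (f i • z j (s i) - f i • α (s i)) + α i := by abel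
        rw [h4, h3]
        abel)
    ext x i
    have h3 : elt s f (fun i => α i - f i • (α (s i))) (α + x) i = (α + x) i := by rw [h2]; rfl
    rw [elt_apply] at h3
    rw [elt_apply]
    simp only [Pi.add_apply, smul_add, Pi.zero_apply, Equiv.Perm.coe_one, id_eq] at h3 ⊢
    have h4 : f i • (x (s i)) + α i = x i + α i := by
      rw [add_comm (x i), ← h3]; abel
    rw [add_zero]
    exact add_right_cancel h4
  have hr : ∀ i, Reg H (fun j => z j i - α i : Fin n → V) := by
    intro i h hfix
    have h1 := key 1 (fun k => if k = i then h else 1)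
      (by
        intro k j
        by_cases hk : k = i
        · subst hk
          have := congrFun hfix j
          simpa using this
        · simp [hk])
    apply FaithfulSMul.eq_of_smul_eq_smul (α := V)
    intro x
    have h2 : elt 1 (fun k => if k = i then h else 1) 0 (fun _ => x) i = x := by rw [h1]; rfl
    rw [elt_apply] at h2
    simpa using h2
  refine ⟨hr, ?_⟩
  intro i j hij
  by_contra hne
  obtain ⟨h, hhx⟩ := cls_eq.mp hij
  have hhx' : ∀ l, h • (z l i - α i) = z l j - α j := fun l => congrFun hhx l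
  have h1 := key (Equiv.swap i j) (fun k => if k = i then h⁻¹ else if k = j then h else 1)
    (by
      intro k l
      by_cases hk : k = i
      · subst hk
        simp only [if_true, Equiv.swap_apply_left]
        rw [← hhx', inv_smul_smul]
      · by_cases hk' : k = j
        · subst hk'
          simp only [hk, if_true, if_false, Equiv.swap_apply_right]
          exact hhx' l
        · simp only [hk, hk', if_false, one_smul, Equiv.swap_apply_of_ne_of_ne hk hk'])
  have h2 : elt (Equiv.swap i j) (fun k => if k = i then h⁻¹ else if k = j then h else 1) 0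
      (Pi.single i u) i = (Pi.single i u : ι → V) i := by rw [h1]; rfl
  rw [elt_apply] at h2
  simp only [if_true, Equiv.swap_apply_left, Pi.zero_apply, add_zero, Pi.single_eq_same,
    Pi.single_eq_of_ne (Ne.symm hne), smul_zero] at h2
  exact hu h2.symm

/-- the orbit of the first entry of a regular orbit on `V ^ (m + 1)` -/
def firstOrb (m : ℕ) (q : Orb H (Fin (m + 1) → V)) : Quotient (orbSetoid H V) :=
  Quotient.lift (fun x : Fin (m + 1) → V => Quotient.mk (orbSetoid H V) (x 0))
    (fun _ _ h => Quotient.sound (by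
      obtain ⟨k, hk⟩ := h
      exact ⟨k, congrFun hk 0⟩)) q.1

theorem firstOrb_cls (m : ℕ) (x : Fin (m + 1) → V) (hx : Reg H x) :
    firstOrb m (cls H x hx) = Quotient.mk (orbSetoid H V) (x 0) := rfl

/-- a finite set with at most `m` elements is covered by a family indexed by `Fin m` -/
theorem enum {X : Type} (S : Finset X) (m : ℕ) (hS : S.card ≤ m) (d : X) :
    ∃ f : Fin m → X, ∀ x ∈ S, ∃ j, f j = x := by
  classical
  refine ⟨fun j => S.toList.getD j d, fun x hx => ?_⟩
  have h1 : x ∈ S.toList := Finset.mem_toList.mpr hx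
  obtain ⟨k, hk, hkx⟩ := List.getElem_of_mem h1
  have hk' : k < m := by
    rw [Finset.length_toList] at hk
    omega
  refine ⟨⟨k, hk'⟩, ?_⟩
  change S.toList.getD k d = x
  rw [List.getD_eq_getElem _ _ hk, hkx]

/-- The main construction for base size `m + 2`. -/
theorem mainB (m : ℕ) [FaithfulSMul H V] [Finite V] [Nontrivial H]
    (hirr : ∀ S : AddSubgroup V, (∀ h : H, ∀ x ∈ S, h • x ∈ S) → S = ⊥ ∨ S = ⊤)
    (hnf : ∀ x : V, x ≠ 0 → ∃ h : H, h • x ≠ x)
    (x₀ : V) (hx₀ : Reg H x₀) (v : V) (hv : ∀ (h : H) (x : V), x - h • x ≠ v) :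
    ∃ (Ω : Type) (_ : Finite Ω) (G : Subgroup (Equiv.Perm Ω)),
      MulAction.IsPreprimitive G Ω ∧
      (∃ B : Finset Ω, B.card = m + 2 ∧ ∀ g ∈ G, (∀ x ∈ B, g x = x) → g = 1) ∧
      (∀ B : Finset Ω, (∀ g ∈ G, (∀ x ∈ B, g x = x) → g = 1) → m + 2 ≤ B.card) ∧
      ∃ α β : Ω, α ≠ β ∧ ¬ ∃ γ : Ω,
        (γ ≠ α ∧ ∃ B : Finset Ω, B.card = m + 2 ∧ α ∈ B ∧ γ ∈ B ∧
            ∀ g ∈ G, (∀ x ∈ B, g x = x) → g = 1) ∧
        (γ ≠ β ∧ ∃ B : Finset Ω, B.card = m + 2 ∧ β ∈ B ∧ γ ∈ B ∧
            ∀ g ∈ G, (∀ x ∈ B, g x = x) → g = 1) := by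
  classical
  have hx0 : x₀ ≠ 0 := by
    rintro rfl
    obtain ⟨h, hh⟩ := exists_ne (1 : H)
    exact hh (hx₀ h (smul_zero h))
  have hcreg : Reg H (fun _ => x₀ : Fin (m + 1) → V) := fun h hh => hx₀ h (congrFun hh 0)
  let i₀ : Orb H (Fin (m + 1) → V) := cls H (fun _ => x₀) hcreg
  let r : Orb H (Fin (m + 1) → V) → Fin (m + 1) → V := fun q => q.2.choose
  have hr1 : ∀ q, Quotient.mk (orbSetoid H (Fin (m + 1) → V)) (r q) = q.1 :=
    fun q => q.2.choose_spec.1
  have hr2 : ∀ q, Reg H (r q) := fun q => q.2.choose_spec.2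
  have hrinj : ∀ p q, (∃ h : H, h • r p = r q) → p = q := by
    intro p q h
    apply Subtype.ext
    rw [← hr1 p, ← hr1 q]
    exact Quotient.sound h
  -- a base with at most `m + 2` elements
  let y : Fin (m + 1) → Orb H (Fin (m + 1) → V) → V := fun j q => r q j
  have hbase : ∀ g ∈ wr H V (Orb H (Fin (m + 1) → V)), g 0 = 0 → (∀ j, g (y j) = y j) → g = 1 := by
    rintro g ⟨s, f, w, hg⟩ h0 h1
    have hw : ∀ i, w i = 0 := by
      intro i
      have := hg 0 i
      rw [h0] at this
      simpa using this.symm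
    have h2 : ∀ i, f i • r (s i) = r i := by
      intro i
      funext j
      have := hg (y j) i
      rw [h1, hw, add_zero] at this
      exact this.symm
    have hs : ∀ i, s i = i := fun i => hrinj _ _ ⟨f i, h2 i⟩
    have hf : ∀ i, f i = 1 := by
      intro i
      apply hr2 i
      have := h2 i
      rwa [hs] at this
    ext x i
    rw [hg, hw, hf, hs]
    simp
  let B₀ : Finset (Orb H (Fin (m + 1) → V) → V) := insert 0 (Finset.univ.image y)
  have hB₀ : ∀ g ∈ wr H V (Orb H (Fin (m + 1) → V)), (∀ x ∈ B₀, g x = x) → g = 1 := by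
    intro g hg hfix
    exact hbase g hg (hfix 0 (Finset.mem_insert_self _ _))
      (fun j => hfix _ (Finset.mem_insert_of_mem (Finset.mem_image_of_mem _ (Finset.mem_univ _))))
  have hB₀card : B₀.card ≤ m + 2 := by
    refine (Finset.card_insert_le _ _).trans ?_
    have := Finset.card_image_le (s := (Finset.univ : Finset (Fin (m + 1)))) (f := y)
    rw [Finset.card_univ, Fintype.card_fin] at this
    omega
  -- every base has at least `m + 2` elements
  have hlow : ∀ B : Finset (Orb H (Fin (m + 1) → V) → V),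
      (∀ g ∈ wr H V (Orb H (Fin (m + 1) → V)), (∀ x ∈ B, g x = x) → g = 1) → m + 2 ≤ B.card := by
    intro B hB
    by_contra hcard
    obtain ⟨α, hα⟩ : ∃ α, (B.erase α).card ≤ m := by
      rcases B.eq_empty_or_nonempty with h | ⟨α, hα⟩
      · refine ⟨0, ?_⟩
        rw [h]
        simp
      · refine ⟨α, ?_⟩
        rw [Finset.card_erase_of_mem hα]
        omega
    obtain ⟨f, hf⟩ := enum (B.erase α) m hα α
    obtain ⟨hr, hinj⟩ := compsB hx0 α (Fin.cons α f : Fin (m + 1) → _) (fun g hg h1 h2 => hB g hg (by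
      intro x hx
      by_cases hxα : x = α
      · rw [hxα]; exact h1
      · obtain ⟨j, hj⟩ := hf x (Finset.mem_erase.mpr ⟨hxα, hx⟩)
        have := h2 j.succ
        rw [Fin.cons_succ, hj] at this
        exact this))
    obtain ⟨i, hi⟩ := Finite.surjective_of_injective hinj i₀
    have h3 := congrArg (firstOrb m) hi
    rw [firstOrb_cls, firstOrb_cls] at h3
    obtain ⟨k, hk⟩ := Quotient.exact h3
    rw [Fin.cons_zero, sub_self, smul_zero] at hk
    exact hx0 hk.symm
  have hB₀eq : B₀.card = m + 2 := le_antisymm hB₀card (hlow _ hB₀)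
  -- a base of the minimal size through two points
  have henum : ∀ (B : Finset (Orb H (Fin (m + 1) → V) → V)) (p γ : Orb H (Fin (m + 1) → V) → V),
      γ ≠ p → B.card = m + 2 → p ∈ B → γ ∈ B →
      (∀ g ∈ wr H V (Orb H (Fin (m + 1) → V)), (∀ x ∈ B, g x = x) → g = 1) →
      ∃ c : Orb H (Fin (m + 1) → V) → Orb H (Fin (m + 1) → V), Function.Bijective c ∧
        ∀ i, firstOrb m (c i) = Quotient.mk (orbSetoid H V) (γ i - p i) := by
    intro B p γ hne hcard hp hγ hB
    obtain ⟨f, hf⟩ := enum ((B.erase p).erase γ) m (by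
      rw [Finset.card_erase_of_mem (Finset.mem_erase.mpr ⟨hne, hγ⟩), Finset.card_erase_of_mem hp]
      omega) p
    obtain ⟨hr, hinj⟩ := compsB hx0 p (Fin.cons γ f : Fin (m + 1) → _) (fun g hg h1 h2 => hB g hg (by
      intro x hx
      by_cases hxp : x = p
      · rw [hxp]; exact h1
      · by_cases hxγ : x = γ
        · have := h2 0
          rw [Fin.cons_zero] at this
          rw [hxγ]; exact this
        · obtain ⟨j, hj⟩ := hf x (Finset.mem_erase.mpr ⟨hxγ, Finset.mem_erase.mpr ⟨hxp, hx⟩⟩)
          have := h2 j.succ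
          rw [Fin.cons_succ, hj] at this
          exact this))
    refine ⟨_, Finite.injective_iff_bijective.mp hinj, fun i => ?_⟩
    rw [firstOrb_cls, Fin.cons_zero]
  refine ⟨Orb H (Fin (m + 1) → V) → V, inferInstance, wr H V (Orb H (Fin (m + 1) → V)),
    primitive hirr hnf, ⟨B₀, hB₀eq, hB₀⟩, hlow, 0, Pi.single i₀ v, ?_, ?_⟩
  · intro h
    have h1 := congrFun h i₀
    rw [Pi.zero_apply, Pi.single_eq_same] at h1
    apply hv 1 0
    rw [← h1, smul_zero, sub_zero]
  · rintro ⟨γ, ⟨hγα, B, hB, hαB, hγB, hBb⟩, ⟨hγβ, B', hB', hβB', hγB', hBb'⟩⟩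
    obtain ⟨c, hc, hcf⟩ := henum B _ γ hγα hB hαB hγB hBb
    obtain ⟨c', hc', hcf'⟩ := henum B' _ γ hγβ hB' hβB' hγB' hBb'
    have := Fintype.ofFinite (Orb H (Fin (m + 1) → V))
    have e1 : ∑ i, Finsupp.single (firstOrb m (c i)) (1 : ℕ) =
        ∑ i, Finsupp.single (firstOrb m i) (1 : ℕ) :=
      Function.Bijective.sum_comp hc (fun i => Finsupp.single (firstOrb m i) (1 : ℕ))
    have e2 : ∑ i, Finsupp.single (firstOrb m (c' i)) (1 : ℕ) =
        ∑ i, Finsupp.single (firstOrb m i) (1 : ℕ) :=
      Function.Bijective.sum_comp hc' (fun i => Finsupp.single (firstOrb m i) (1 : ℕ))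
    have e3 := e1.trans e2.symm
    rw [← Finset.add_sum_erase _ _ (Finset.mem_univ i₀),
      ← Finset.add_sum_erase Finset.univ (fun i => Finsupp.single (firstOrb m (c' i)) (1 : ℕ))
        (Finset.mem_univ i₀)] at e3
    have e4 : ∑ x ∈ Finset.univ.erase i₀, Finsupp.single (firstOrb m (c x)) (1 : ℕ) =
        ∑ x ∈ Finset.univ.erase i₀, Finsupp.single (firstOrb m (c' x)) (1 : ℕ) := by
      apply Finset.sum_congr rfl
      intro x hx
      rw [hcf, hcf', Pi.single_eq_of_ne (Finset.ne_of_mem_erase hx), Pi.zero_apply]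
    rw [e4] at e3
    have e5 := add_right_cancel e3
    have e6 : firstOrb m (c i₀) = firstOrb m (c' i₀) :=
      Finsupp.single_left_injective one_ne_zero e5
    rw [hcf, hcf'] at e6
    obtain ⟨h, hh⟩ := Quotient.exact e6
    rw [Pi.zero_apply, sub_zero, Pi.single_eq_same] at hh
    apply hv h (γ i₀)
    rw [hh]
    abel

end Pool.Agent.H768R3.Wreath
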